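import Pool.Agent.Lib.MP_3b3418_ag.PW.SpecE

/-!
# Project PV2, part E: degeneration
-/

set_option autoImplicit false

namespace PW

open MP3s PV

/-- Linear projection onto the first summand of `V = A ⊔ B`. -/
private theorem Dg_proj {R : Type} [AddCommGroup R] [Module ℂ R] (A B V : Submodule ℂ R)
    (hV : V = A ⊔ B) (hd : Disjoint A B) :
    ∃ π : V →ₗ[ℂ] A, ∀ v : V, v.1 - (π v).1 ∈ B := by
  have hA : A ≤ V := by rw [hV]; exact le_sup_left
  have hB : B ≤ V := by rw [hV]; exact le_sup_right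
  obtain ⟨f, hf⟩ : ∃ f : (A × B) →ₗ[ℂ] V, ∀ x, (f x).1 = x.1.1 + x.2.1 :=
    ⟨(Submodule.inclusion hA).coprod (Submodule.inclusion hB), fun x => rfl⟩
  have hinj : Function.Injective f := by
    rw [injective_iff_map_eq_zero]
    intro x hx
    have h1 : x.1.1 + x.2.1 = 0 := by rw [← hf, hx]; rfl
    have h2 : x.1.1 ∈ B := by
      rw [eq_neg_of_add_eq_zero_left h1]
      exact B.neg_mem x.2.2
    have h3 : x.1.1 = 0 := by
      have := Submodule.disjoint_def.1 hd _ x.1.2 h2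
      exact this
    have h4 : x.2.1 = 0 := by rw [h3, zero_add] at h1; exact h1
    exact Prod.ext (Subtype.ext h3) (Subtype.ext h4)
  have hsur : Function.Surjective f := by
    intro v
    have hv : v.1 ∈ A ⊔ B := by rw [← hV]; exact v.2
    obtain ⟨a, ha, b, hb, hab⟩ := Submodule.mem_sup.1 hv
    exact ⟨(⟨a, ha⟩, ⟨b, hb⟩), Subtype.ext (by rw [hf]; exact hab)⟩
  obtain ⟨e, he⟩ : ∃ e : (A × B) ≃ₗ[ℂ] V, ∀ x, e x = f x :=
    ⟨LinearEquiv.ofBijective f ⟨hinj, hsur⟩, fun x => rfl⟩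
  refine ⟨LinearMap.fst ℂ A B ∘ₗ e.symm.toLinearMap, fun v => ?_⟩
  have h1 : v.1 = (e.symm v).1.1 + (e.symm v).2.1 := by
    rw [← hf, ← he, e.apply_symm_apply]
  have h2 : v.1 - ((LinearMap.fst ℂ A B ∘ₗ e.symm.toLinearMap) v).1 = (e.symm v).2.1 := by
    rw [sub_eq_iff_eq_add, add_comm]
    exact h1
  rw [h2]
  exact (e.symm v).2.2

/-- The eigenspaces are independent. -/
private theorem Dg_disj {R : Type} [AddCommGroup R] [Module ℂ R] {I : Type} [DecidableEq I]
    (K : Finset I) (W : I → Submodule ℂ R) (D : R →ₗ[ℂ] R) (ev : I → ℂ)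
    (hD : ∀ κ ∈ K, ∀ w ∈ W κ, D w = ev κ • w)
    (hev : ∀ κ ∈ K, ∀ κ' ∈ K, ev κ = ev κ' → κ = κ') (κ₀ : I) (h0 : κ₀ ∈ K) :
    Disjoint (W κ₀) (⨆ κ ∈ K.erase κ₀, W κ) := by
  have h1 := (Module.End.eigenspaces_iSupIndep D) (ev κ₀)
  refine h1.mono ?_ ?_
  · intro w hw
    rw [Module.End.mem_eigenspace_iff]
    exact hD κ₀ h0 w hw
  · refine iSup₂_le fun κ hκ => ?_
    rw [Finset.mem_erase] at hκ
    have h2 : ev κ ≠ ev κ₀ := fun h => hκ.1 (hev κ hκ.2 κ₀ h0 h)
    refine le_trans ?_ (le_iSup₂ (f := fun (μ : ℂ) (_ : μ ≠ ev κ₀) =>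
      Module.End.eigenspace D μ) (ev κ) h2)
    intro w hw
    rw [Module.End.mem_eigenspace_iff]
    exact hD κ hκ.2 w hw

theorem tDg : S_Ex → S_Is → S_Dg := by
  intro hE hI m R _ _ Φ I _ K W ρ D ev h q
  induction hn : K.card generalizing K with
  | zero =>
    intro _ _ _ _ _ V θ hV _ _
    have hK : K = ∅ := Finset.card_eq_zero.1 hn
    have hV' : V = ⊥ := by rw [hV, hK]; simp
    have hs : Subsingleton V := by
      rw [hV']
      infer_instance
    exact (hI m V V θ θ q).1 hs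
  | succ n ih =>
    intro hRat hD hev hΦ hT V θ hV hθ hRθ
    have hne : K.Nonempty := by
      rw [← Finset.card_pos, hn]
      exact Nat.succ_pos n
    obtain ⟨κ₀, h0, hmin⟩ := Finset.exists_min_image K h hne
    obtain ⟨K', hK'⟩ : ∃ K' : Finset I, K' = K.erase κ₀ := ⟨_, rfl⟩
    have hK'K : ∀ κ ∈ K', κ ∈ K := fun κ hκ => by
      rw [hK'] at hκ
      exact Finset.mem_of_mem_erase hκ
    have hcard : K'.card = n := by
      rw [hK', Finset.card_erase_of_mem h0, hn]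
      rfl
    obtain ⟨V', hV'⟩ : ∃ V' : Submodule ℂ R, V' = ⨆ κ ∈ K', W κ := ⟨_, rfl⟩
    have hWV' : ∀ κ ∈ K', W κ ≤ V' := fun κ hκ => by
      rw [hV']
      exact le_iSup₂ (f := fun (κ : I) (_ : κ ∈ K') => W κ) κ hκ
    have hfil : ∀ κ ∈ K, ∀ κ' ∈ K.filter (fun κ' => h κ < h κ'), κ' ∈ K' := by
      intro κ hκ κ' hκ'
      rw [Finset.mem_filter] at hκ'
      rw [hK', Finset.mem_erase]
      refine ⟨?_, hκ'.1⟩
      rintro rfl
      exact absurd hκ'.2 (not_lt.2 (hmin κ hκ))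
    have hΦ' : ∀ κ ∈ K, ∀ (b : Bo m) (w : W κ), Φ b w.1 - (ρ κ b w).1 ∈ V' := by
      intro κ hκ b w
      refine (?_ : (⨆ κ' ∈ K.filter (fun κ' => h κ < h κ'), W κ') ≤ V') (hΦ κ hκ b w)
      exact iSup₂_le fun κ' hκ' => hWV' κ' (hfil κ hκ κ' hκ')
    have hst : ∀ b, ∀ v ∈ V', Φ b v ∈ V' := by
      intro b
      have h1 : V' ≤ V'.comap (Φ b) := by
        rw [hV']
        refine iSup₂_le fun κ hκ => ?_
        intro w hw
        rw [Submodule.mem_comap, ← hV']
        have h2 := hΦ' κ (hK'K κ hκ) b ⟨w, hw⟩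
        have h3 : (ρ κ b ⟨w, hw⟩).1 ∈ V' := hWV' κ hκ (ρ κ b ⟨w, hw⟩).2
        have h4 := V'.add_mem h2 h3
        rw [sub_add_cancel] at h4
        exact h4
      exact fun v hv => h1 hv
    have hsup : V = W κ₀ ⊔ V' := by
      rw [hV, hV', hK']
      conv_lhs => rw [← Finset.insert_erase h0]
      rw [Finset.iSup_insert]
    have hVle : V' ≤ V := by rw [hsup]; exact le_sup_right
    have hWle : W κ₀ ≤ V := by rw [hsup]; exact le_sup_left
    have hdis : Disjoint (W κ₀) V' := by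
      rw [hV', hK']
      exact Dg_disj K W D ev hD hev κ₀ h0
    obtain ⟨θ', hθ'⟩ : ∃ θ' : Representation ℂ (Bo m) V', ∀ b v, (θ' b v).1 = Φ b v.1 := by
      refine ⟨{ toFun := fun b => (Φ b).restrict (hst b), map_one' := ?_, map_mul' := ?_ },
        fun b v => rfl⟩
      · refine LinearMap.ext fun v => Subtype.ext ?_
        have h1 := hθ 1 ⟨v.1, hVle v.2⟩
        rw [map_one] at h1
        exact h1.symm
      · intro a b
        refine LinearMap.ext fun v => Subtype.ext ?_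
        have h1 := hθ (a * b) ⟨v.1, hVle v.2⟩
        rw [map_mul] at h1
        have h2 := hθ a (θ b ⟨v.1, hVle v.2⟩)
        rw [hθ b] at h2
        exact h1.symm.trans h2
    have hRθ' : Rat θ' := by
      intro v
      have h1 : Reg fun b : Bo m => V.subtype (θ b ⟨v.1, hVle v.2⟩) :=
        (hRθ ⟨v.1, hVle v.2⟩).map V.subtype
      have h2 : ∀ b : Bo m, V.subtype (θ b ⟨v.1, hVle v.2⟩) = (θ' b v).1 := by
        intro b
        rw [hθ']
        exact hθ b ⟨v.1, hVle v.2⟩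
      have h3 := h1.codRestrict V' (fun b => by rw [h2 b]; exact (θ' b v).2)
      have h4 : (fun b : Bo m => θ' b v) = fun b : Bo m =>
          (⟨V.subtype (θ b ⟨v.1, hVle v.2⟩), by rw [h2 b]; exact (θ' b v).2⟩ : V') :=
        funext fun b => Subtype.ext (h2 b).symm
      rw [h4]
      exact h3
    have hTθ' : Trv θ' q := by
      refine ih K' hcard (fun κ hκ => hRat κ (hK'K κ hκ)) (fun κ hκ => hD κ (hK'K κ hκ))
        (fun κ hκ κ' hκ' => hev κ (hK'K κ hκ) κ' (hK'K κ' hκ')) ?_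
        (fun κ hκ => hT κ (hK'K κ hκ)) V' θ' hV' hθ' hRθ'
      intro κ hκ b w
      refine (?_ : (⨆ κ' ∈ K.filter (fun κ' => h κ < h κ'), W κ') ≤
        ⨆ κ' ∈ K'.filter (fun κ' => h κ < h κ'), W κ') (hΦ κ (hK'K κ hκ) b w)
      refine iSup₂_le fun κ' hκ' => ?_
      have h1 : κ' ∈ K'.filter (fun κ' => h κ < h κ') := by
        rw [Finset.mem_filter]
        exact ⟨hfil κ (hK'K κ hκ) κ' hκ', (Finset.mem_filter.1 hκ').2⟩
      exact le_iSup₂ (f := fun (κ' : I) (_ : κ' ∈ K'.filter (fun κ' => h κ < h κ')) => W κ') κ' h1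
    obtain ⟨π, hπ⟩ := Dg_proj (W κ₀) V' V hsup hdis
    have hz : ∀ w : W κ₀, w.1 ∈ V' → w = 0 := fun w hw =>
      Subtype.ext (Submodule.disjoint_def.1 hdis _ w.2 hw)
    refine hE m V' V (W κ₀) θ' θ (ρ κ₀) (Submodule.inclusion hVle) π q hRθ' hRθ (hRat κ₀ h0)
      ⟨Submodule.inclusion_injective hVle, ?_, ?_, ?_, ?_⟩ hTθ' (hT κ₀ h0)
    · intro w
      refine ⟨⟨w.1, hWle w.2⟩, ?_⟩
      have h1 : (w - π ⟨w.1, hWle w.2⟩).1 ∈ V' := hπ ⟨w.1, hWle w.2⟩
      have h2 := hz _ h1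
      exact (sub_eq_zero.1 h2).symm
    · intro v
      constructor
      · intro hv
        have h1 := hπ v
        rw [hv] at h1
        have h2 : v.1 - (0 : W κ₀).1 = v.1 := sub_zero _
        rw [h2] at h1
        exact ⟨⟨v.1, h1⟩, Subtype.ext rfl⟩
      · rintro ⟨v', rfl⟩
        apply hz
        have h1 := hπ (Submodule.inclusion hVle v')
        have h2 := V'.sub_mem v'.2 h1
        have h3 : v'.1 - ((Submodule.inclusion hVle v').1 - (π (Submodule.inclusion hVle v')).1) =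
            (π (Submodule.inclusion hVle v')).1 := by
          have : (Submodule.inclusion hVle v').1 = v'.1 := rfl
          rw [this]
          abel
        rw [h3] at h2
        exact h2
    · intro b v
      refine Subtype.ext ?_
      have h1 : (Submodule.inclusion hVle (θ' b v)).1 = (θ' b v).1 := rfl
      rw [h1, hθ', hθ]
      rfl
    · intro b v
      have h1 := hπ (θ b v)
      have h2 := hΦ' κ₀ h0 b (π v)
      have h3 := hst b _ (hπ v)
      have h4 : (ρ κ₀ b (π v) - π (θ b v)).1 ∈ V' := by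
        have h5 := V'.sub_mem (V'.sub_mem h1 h3) h2
        have h6 : (θ b v).1 - (π (θ b v)).1 - Φ b (v.1 - (π v).1) -
            (Φ b (π v).1 - (ρ κ₀ b (π v)).1) = (ρ κ₀ b (π v) - π (θ b v)).1 := by
          rw [hθ, map_sub]
          have h7 : (ρ κ₀ b (π v) - π (θ b v)).1 = (ρ κ₀ b (π v)).1 - (π (θ b v)).1 := rfl
          rw [h7]
          abel
        rw [h6] at h5
        exact h5
      have h5 := hz _ h4
      exact (sub_eq_zero.1 h5).symm

end PW
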