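import Pool.Agent.Lib.MP_3b3418_ag.PW.SpecE

/-! Combinatorics of the number of ascending pairs among the first `n` entries. -/

set_option autoImplicit false
set_option linter.all false

namespace PW

open MP3s PV

private lemma In_swap_n {m n : ℕ} (i j : Fin m) (hi : i.val < n) (hj : j.val < n) (b : Fin m)
    (hb : b.val < n) : (Equiv.swap i j b).val < n := by
  rw [Equiv.swap_apply_def]
  by_cases h1 : b = i
  · rw [if_pos h1]
    exact hj
  · rw [if_neg h1]
    by_cases h2 : b = j
    · rw [if_pos h2]
      exact hi
    · rw [if_neg h2]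
      exact hb

private lemma In_swap_lt {m : ℕ} (i j : Fin m) (h : j.val = i.val + 1) (a b : Fin m) (hab : a < b)
    (hne : ¬ (a = i ∧ b = j)) : Equiv.swap i j a < Equiv.swap i j b := by
  rw [Equiv.swap_apply_def, Equiv.swap_apply_def]
  have hab' : a.val < b.val := hab
  by_cases h1 : a = i
  · have h2 : b ≠ j := fun h2 => hne ⟨h1, h2⟩
    have h3 : b ≠ i := by
      intro h3
      rw [h1, h3] at hab
      exact lt_irrefl _ hab
    rw [if_pos h1, if_neg h3, if_neg h2]
    have h4 : b.val ≠ j.val := fun h4 => h2 (Fin.ext h4)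
    rw [Fin.lt_def]
    rw [h1] at hab'
    omega
  · rw [if_neg h1]
    have h1' : a.val ≠ i.val := fun h4 => h1 (Fin.ext h4)
    by_cases h2 : a = j
    · rw [if_pos h2]
      have h3 : b ≠ i := by
        intro h3
        rw [h2, h3] at hab'
        omega
      have h4 : b ≠ j := by
        intro h4
        rw [h2, h4] at hab'
        omega
      rw [if_neg h3, if_neg h4]
      rw [Fin.lt_def]
      rw [h2] at hab'
      omega
    · rw [if_neg h2]
      have h2' : a.val ≠ j.val := fun h4 => h2 (Fin.ext h4)
      by_cases h3 : b = i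
      · rw [if_pos h3]
        rw [h3] at hab'
        rw [Fin.lt_def]
        omega
      · rw [if_neg h3]
        by_cases h4 : b = j
        · rw [if_pos h4]
          rw [h4] at hab'
          rw [Fin.lt_def]
          omega
        · rw [if_neg h4]
          exact hab

private lemma In_one {m n : ℕ} (η : Fin m → ℤ) (i j : Fin m) (h : j.val = i.val + 1)
    (hn : j.val < n) (hη : η j < η i) :
    inn n (fun k => η (Equiv.swap i j k)) = inn n η + 1 := by
  classical
  unfold inn
  have hij : i < j := by
    rw [Fin.lt_def]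
    omega
  have hin : i.val < n := by omega
  set φ : Fin m × Fin m → Fin m × Fin m :=
    fun p => (Equiv.swap i j p.1, Equiv.swap i j p.2) with hφ
  have hφφ : ∀ p, φ (φ p) = p := by
    intro p
    simp [hφ, Equiv.swap_apply_self]
  have hinj : Function.Injective φ := fun p q hpq => by
    rw [← hφφ p, ← hφφ q, hpq]
  have key : (Finset.univ.filter fun p : Fin m × Fin m =>
      p.1 < p.2 ∧ p.2.val < n ∧ η (Equiv.swap i j p.1) < η (Equiv.swap i j p.2)) =
      insert (i, j) ((Finset.univ.filter fun p : Fin m × Fin m =>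
        p.1 < p.2 ∧ p.2.val < n ∧ η p.1 < η p.2).image φ) := by
    ext ⟨a, b⟩
    simp only [Finset.mem_filter, Finset.mem_univ, true_and, Finset.mem_insert, Finset.mem_image]
    constructor
    · rintro ⟨h1, h1n, h2⟩
      by_cases hc : a = i ∧ b = j
      · left
        rw [hc.1, hc.2]
      · right
        refine ⟨φ (a, b), ⟨In_swap_lt i j h a b h1 hc, In_swap_n i j hin hn b h1n, h2⟩, hφφ _⟩
    · rintro (h1 | ⟨⟨c, d⟩, ⟨h1, h1n, h2⟩, h3⟩)
      · have ha : a = i := (Prod.mk.inj h1).1
        have hb : b = j := (Prod.mk.inj h1).2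
        rw [ha, hb, Equiv.swap_apply_left, Equiv.swap_apply_right]
        exact ⟨hij, hn, hη⟩
      · have ha : Equiv.swap i j c = a := (Prod.mk.inj h3).1
        have hb : Equiv.swap i j d = b := (Prod.mk.inj h3).2
        rw [← ha, ← hb, Equiv.swap_apply_self, Equiv.swap_apply_self]
        refine ⟨In_swap_lt i j h c d h1 ?_, In_swap_n i j hin hn d h1n, h2⟩
        rintro ⟨hc, hd⟩
        simp only at h2
        rw [hc, hd] at h2
        exact absurd h2 (not_lt.mpr hη.le)
  rw [key, Finset.card_insert_of_notMem, Finset.card_image_of_injective _ hinj]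
  intro hmem
  rw [Finset.mem_image] at hmem
  obtain ⟨⟨c, d⟩, h1, h3⟩ := hmem
  rw [Finset.mem_filter] at h1
  have hc : Equiv.swap i j c = i := (Prod.mk.inj h3).1
  have hd : Equiv.swap i j d = j := (Prod.mk.inj h3).2
  have hc' : c = j := by
    have := congrArg (Equiv.swap i j) hc
    rwa [Equiv.swap_apply_self, Equiv.swap_apply_left] at this
  have hd' : d = i := by
    have := congrArg (Equiv.swap i j) hd
    rwa [Equiv.swap_apply_self, Equiv.swap_apply_right] at this
  have h4 : c < d := h1.2.1
  rw [hc', hd'] at h4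
  exact absurd h4 (not_lt.mpr hij.le)

private lemma In_anti {m n : ℕ} (η : Fin m → ℤ)
    (h : ∀ i j : Fin m, j.val = i.val + 1 → j.val < n → η j ≤ η i) :
    ∀ (d : ℕ) (a b : Fin m), b.val = a.val + d → b.val < n → η b ≤ η a := by
  intro d
  induction d with
  | zero =>
    intro a b hab hb
    have : b = a := Fin.ext (by simpa using hab)
    rw [this]
  | succ d ih =>
    intro a b hab hb
    have hlt : a.val + d < m := by
      have := b.isLt
      omega
    have h1 := ih a ⟨a.val + d, hlt⟩ rfl (by simp only; omega)
    have h2 := h ⟨a.val + d, hlt⟩ b (by simp only; omega) hb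
    exact le_trans h2 h1

private lemma In_zero {m n : ℕ} (η : Fin m → ℤ) (h : inn n η = 0) (a b : Fin m) (hab : a < b)
    (hb : b.val < n) : η b ≤ η a := by
  by_contra hc
  push Not at hc
  unfold inn at h
  rw [Finset.card_eq_zero] at h
  have h1 : (a, b) ∈ (Finset.univ.filter fun p : Fin m × Fin m =>
      p.1 < p.2 ∧ p.2.val < n ∧ η p.1 < η p.2) := by
    rw [Finset.mem_filter]
    exact ⟨Finset.mem_univ _, hab, hb, hc⟩
  rw [h] at h1
  exact absurd h1 (Finset.notMem_empty _)

private lemma In_perm {m n : ℕ} (s : Equiv.Perm (Fin m))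
    (hs : ∀ k : Fin m, n ≤ k.val → s k = k) (k : Fin m) (hk : k.val < n) : (s k).val < n := by
  by_contra hc
  push Not at hc
  have h1 := hs (s k) hc
  have h2 : s k = k := s.injective h1
  rw [h2] at hc
  omega

theorem tIn : S_In := by
  intro m n η
  refine ⟨?_, ?_, ?_, ?_, ?_, ?_⟩
  · intro i j h hn hη
    have h1 : (fun k => η (Equiv.swap i j k)) j < (fun k => η (Equiv.swap i j k)) i := by
      simp only [Equiv.swap_apply_left, Equiv.swap_apply_right]
      exact hη
    have h2 := In_one (fun k => η (Equiv.swap i j k)) i j h hn h1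
    simp only [Equiv.swap_apply_self] at h2
    exact h2.symm
  · intro hpos
    by_contra hno
    push Not at hno
    unfold inn at hpos
    rw [Finset.card_pos] at hpos
    obtain ⟨⟨a, b⟩, hab⟩ := hpos
    rw [Finset.mem_filter] at hab
    have h1 : a.val < b.val := hab.2.1
    have h2 := In_anti η hno (b.val - a.val) a b (by omega) hab.2.2.1
    exact absurd hab.2.2.2 (not_lt.mpr h2)
  · rintro h0 ⟨a, b, hab, hb, he⟩
    have hlt : a.val < b.val := hab
    have hm : a.val + 1 < m := by
      have := b.isLt
      omega
    refine ⟨a, ⟨a.val + 1, hm⟩, rfl, by simp only; omega, ?_⟩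
    have h1 : η ⟨a.val + 1, hm⟩ ≤ η a :=
      In_zero η h0 a ⟨a.val + 1, hm⟩ (by rw [Fin.lt_def]; simp only; omega) (by simp only; omega)
    rcases Nat.lt_or_ge (a.val + 1) b.val with h2 | h2
    · have h3 : η b ≤ η ⟨a.val + 1, hm⟩ :=
        In_zero η h0 ⟨a.val + 1, hm⟩ b (by rw [Fin.lt_def]; exact h2) hb
      rw [← he] at h3
      exact le_antisymm h3 h1
    · have h3 : b = ⟨a.val + 1, hm⟩ := Fin.ext (by simp only; omega)
      rw [← h3]
      exact he
  · rintro h0 η' ⟨s, hs1, hs2, hs3⟩
    have hmono : StrictMono s := by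
      intro a b hab
      have hab' : a.val < b.val := hab
      rcases Nat.lt_or_ge b.val n with hb | hb
      · have ha : a.val < n := by omega
        have h1 := hs3 a b hab hb
        rw [hs2 a, hs2 b] at h1
        by_contra hc
        push Not at hc
        rcases hc.lt_or_eq with h2 | h2
        · exact absurd h1 (not_lt.mpr (In_zero η h0 (s b) (s a) h2 (In_perm s hs1 a ha)))
        · exact absurd (s.injective h2) hab.ne'
      · rw [hs1 b hb]
        rcases Nat.lt_or_ge a.val n with ha | ha
        · have h1 := In_perm s hs1 a ha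
          rw [Fin.lt_def]
          omega
        · rw [hs1 a ha]
          exact hab
    have hid : (s : Fin m → Fin m) = id := by
      refine (StrictMono.range_inj hmono strictMono_id).mp ?_
      rw [s.surjective.range_eq, Function.surjective_id.range_eq]
    funext k
    rw [hs2 k, hid]
    rfl
  · rintro i j η' hi hj ⟨s, hs1, hs2, hs3⟩
    refine ⟨s.trans (Equiv.swap i j), fun k hk => ?_, fun k => ?_, hs3⟩
    · rw [Equiv.trans_apply, hs1 k hk]
      apply Equiv.swap_apply_of_ne_of_ne
      · intro h
        rw [h] at hk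
        omega
      · intro h
        rw [h] at hk
        omega
    · show η' k = η (Equiv.swap i j (Equiv.swap i j (s k)))
      rw [Equiv.swap_apply_self]
      exact hs2 k
  · rintro η' ⟨s, hs1, hs2, hs3⟩ i j hij hj he
    have hij' : i.val < j.val := hij
    have hlt : ∀ k : Fin m, k.val < n → (s.symm k).val < n := by
      intro k hk
      by_contra hc
      push Not at hc
      have h1 := hs1 (s.symm k) hc
      rw [Equiv.apply_symm_apply] at h1
      rw [← h1] at hc
      omega
    have h1 : η' (s.symm i) = η' (s.symm j) := by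
      rw [hs2, hs2, Equiv.apply_symm_apply, Equiv.apply_symm_apply]
      exact he
    rcases lt_trichotomy (s.symm i) (s.symm j) with h2 | h2 | h2
    · have h3 := hs3 _ _ h2 (hlt j hj)
      omega
    · exact absurd (s.symm.injective h2) hij.ne
    · have h3 := hs3 _ _ h2 (hlt i (by omega))
      omega

end PW
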