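import Pool.Agent.Lib.MP_3b3418_ag.PW.SpecE

/-!
# Project PV2, part E: Is, zero modules and transport along an isomorphism
-/

set_option autoImplicit false

namespace PW

open MP3s PV

/-- The isomorphism `F ↦ e ∘ F` of the spaces of regular maps. -/
private noncomputable def Is_E (m : ℕ) {V V₁ : Type} [AddCommGroup V] [Module ℂ V]
    [AddCommGroup V₁] [Module ℂ V₁] (e : V ≃ₗ[ℂ] V₁) : RG m V ≃ₗ[ℂ] RG m V₁ where
  toFun F := ⟨fun g => e (F.1 g), Reg.map F.2 e.toLinearMap⟩
  invFun F := ⟨fun g => e.symm (F.1 g), Reg.map F.2 e.symm.toLinearMap⟩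
  map_add' F G := Subtype.ext (funext fun g => map_add e _ _)
  map_smul' c F := Subtype.ext (funext fun g => map_smul e _ _)
  left_inv F := Subtype.ext (funext fun g => e.symm_apply_apply _)
  right_inv F := Subtype.ext (funext fun g => e.apply_symm_apply _)

/-- Transport of a representation. -/
private noncomputable def Is_rep {H A B : Type} [Monoid H] [AddCommGroup A] [Module ℂ A]
    [AddCommGroup B] [Module ℂ B] (E : A ≃ₗ[ℂ] B) (θ : Representation ℂ H B) :
    Representation ℂ H A where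
  toFun b := E.symm.toLinearMap ∘ₗ θ b ∘ₗ E.toLinearMap
  map_one' := by
    refine LinearMap.ext fun v => ?_
    change E.symm (θ 1 (E v)) = v
    rw [map_one]
    exact E.symm_apply_apply v
  map_mul' a b := by
    refine LinearMap.ext fun v => ?_
    change E.symm (θ (a * b) (E v)) = E.symm (θ a (E (E.symm (θ b (E v)))))
    rw [map_mul, E.apply_symm_apply]
    rfl

private theorem Is_zero {m : ℕ} {V : Type} [AddCommGroup V] [Module ℂ V] [Subsingleton V]
    (ρ : Representation ℂ (Bo m) V) (f : V →ₗ[ℂ] V) (q : ℕ) : Zq ρ f q := by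
  intro φ _ _
  cases q with
  | zero =>
    change (fun β => f (φ β)) = 0
    exact Subsingleton.elim _ _
  | succ p =>
    exact ⟨fun _ => 0, ⟨Reg.zero, fun _ _ => Subsingleton.elim _ _⟩, Subsingleton.elim _ _⟩

theorem tIs : S_Is := by
  intro m V V₁ _ _ _ _ ρ ρ₁ q
  refine ⟨?_, ?_⟩
  · intro hV θ _ τ _ x
    have h : Subsingleton (RG m V) := ⟨fun F G => Subtype.ext (Subsingleton.elim _ _)⟩
    exact Is_zero θ _ q
  · intro e he hT θ₁ hθ₁ τ₁ hτ₁ x
    have hθ : IsR ρ (Is_rep (Is_E m e) θ₁) := by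
      intro b F g
      change e.symm ((θ₁ b (Is_E m e F)).1 g) = ρ b (F.1 (g * b.1))
      rw [hθ₁ b (Is_E m e F) g]
      change e.symm (ρ₁ b (e (F.1 (g * b.1)))) = _
      rw [← he, e.symm_apply_apply]
    have hτ : IsL (Is_rep (Is_E m e) τ₁) := by
      intro y F g
      change e.symm ((τ₁ y (Is_E m e F)).1 g) = F.1 (y⁻¹ * g)
      rw [hτ₁ y (Is_E m e F) g]
      change e.symm (e (F.1 (y⁻¹ * g))) = _
      rw [e.symm_apply_apply]
    refine (aVZ m (RG m V) (RG m V₁) (Is_rep (Is_E m e) θ₁) θ₁).2.1 (Is_E m e)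
      (Is_rep (Is_E m e) τ₁ x - LinearMap.id) (τ₁ x - LinearMap.id) q ?_ ?_
      (hT _ hθ _ hτ x)
    · intro b F
      change Is_E m e ((Is_E m e).symm (θ₁ b (Is_E m e F))) = _
      rw [LinearEquiv.apply_symm_apply]
    · intro F
      change τ₁ x (Is_E m e F) - Is_E m e F =
        Is_E m e ((Is_E m e).symm (τ₁ x (Is_E m e F)) - F)
      rw [map_sub, LinearEquiv.apply_symm_apply]

end PW
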