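import Pool.Agent.Lib.MP_3b3418_ag.PW.SpecE

/-!
# PV2, RA: the regular maps from `SL_m` to a module with an action of a block of `SL_2`
-/

set_option autoImplicit false

namespace PW

open MP3s PV

section

variable {m : ℕ} {V : Type} [AddCommGroup V] [Module ℂ V]

private theorem RA_ext {F F' : RG m V} (h : ∀ g, F.1 g = F'.1 g) : F = F' :=
  Subtype.ext (funext h)

/-- Right multiplication is a morphism. -/
private theorem RA_right (y : SLm m) : Mor fun g : SLm m => g * y :=
  Mor.comp (tMor m).1 (Mor.pair Mor.id (Mor.const y))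

/-- The action of `SL_2`. -/
private noncomputable def RA_sg (e : SLm 2 →* SLm m) (σ : Representation ℂ (SLm 2) V) :
    Representation ℂ (SLm 2) (RG m V) where
  toFun g :=
    { toFun := fun F => ⟨fun y => σ g (F.1 (y * e g)),
        Reg.map (Reg.comp F.2 (RA_right (e g))) (σ g)⟩
      map_add' := fun F F' => RA_ext fun y => map_add (σ g) _ _
      map_smul' := fun c F => RA_ext fun y => map_smul (σ g) _ _ }
  map_one' := by
    refine LinearMap.ext fun F => RA_ext fun y => ?_
    change σ 1 (F.1 (y * e 1)) = F.1 y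
    rw [map_one e, mul_one, map_one]
    rfl
  map_mul' a b := by
    refine LinearMap.ext fun F => RA_ext fun y => ?_
    change σ (a * b) (F.1 (y * e (a * b))) = σ a (σ b (F.1 (y * e a * e b)))
    rw [map_mul e, map_mul, mul_assoc]
    rfl

/-- Regularity in both variables gives regularity of the map to `RG m V`. -/
private theorem RA_cur {H : Type} [Co H] (f : H × SLm m → V) (hf : Reg f) (F : H → RG m V)
    (h : ∀ b g, (F b).1 g = f (b, g)) : Reg F := by
  have h1 : ∀ b, (fun g => f (b, g) : SLm m → V) ∈ RG m V := by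
    intro b
    have h2 : (fun g => f (b, g) : SLm m → V) = (F b).1 := funext fun g => (h b g).symm
    rw [h2]
    exact (F b).2
  have h3 := Reg.codRestrict (Reg.curry hf) (RG m V) h1
  have h4 : (fun b => (⟨fun g => f (b, g), h1 b⟩ : RG m V)) = F :=
    funext fun b => RA_ext fun g => (h b g).symm
  rw [h4] at h3
  exact h3

private theorem RA_rat (e : SLm 2 →* SLm m) (he : Mor e) (σ : Representation ℂ (SLm 2) V)
    (hσ : Rat σ) : Rat (RA_sg e σ) := by
  intro F
  refine RA_cur (fun p : SLm 2 × SLm m => σ p.1 (F.1 (p.2 * e p.1))) ?_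
    (fun g => RA_sg e σ g F) fun g y => rfl
  refine Reg.act (θ := fun g : SLm 2 => σ g) hσ (g := fun p : SLm 2 × SLm m => p.1) Mor.fst ?_
  refine Reg.comp F.2 (g := fun p : SLm 2 × SLm m => p.2 * e p.1) ?_
  exact Mor.comp (tMor m).1 (Mor.pair Mor.snd (Mor.comp he Mor.fst))

end

/-- **RA.** -/
theorem tRA : S_RA := by
  intro m i j hij c V _ _ ρ σ hA θ hθ
  obtain ⟨⟨e, he, heM⟩, -, -, huniq⟩ := tEmb m i j hij
  refine ⟨⟨RA_sg e σ, ((aRGa m V ρ hA.rat).2.2.1 θ hθ).1, RA_rat e heM σ hA.rat2, ?_⟩, ?_⟩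
  · intro g b hg hb
    have hb' : b.1 = e g := huniq g b.1 (e g) hb (he g)
    refine LinearMap.ext fun F => RA_ext fun y => ?_
    rw [hθ b F y, hb', hA.agree g b hg hb]
    rfl
  · intro μ θ' hθ'
    refine MonoidHom.ext fun b => LinearMap.ext fun F => RA_ext fun y => ?_
    rw [hθ' b F y]
    change chr μ b • ρ b (F.1 (y * b.1)) = chr μ b • (θ b F).1 y
    rw [hθ b F y]

end PW
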