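import Pool.Agent.Lib.MP_3b3418_ag.PW.SpecE

/-!
# Project PV2, module SV: vanishing and swap lemma for `Trv`
-/

set_option autoImplicit false

namespace PW

open MP3s PV

/-- `τ x - id` commutes with `θ` -/
private theorem SV_com {m : ℕ} {V : Type} [AddCommGroup V] [Module ℂ V]
    {ρ : Representation ℂ (Bo m) V} (hρ : Rat ρ) {θ : Representation ℂ (Bo m) (RG m V)}
    (hθ : IsR ρ θ) {τ : Representation ℂ (SLm m) (RG m V)} (hτ : IsL τ) (x : SLm m) :
    Com θ (τ x - LinearMap.id) := by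
  intro b F
  have h : τ x (θ b F) = θ b (τ x F) := ((aRGa m V ρ hρ).2.2.1 θ hθ).2 τ hτ x b F
  change τ x (θ b F) - θ b F = θ b (τ x F - F)
  rw [h, map_sub]

/-- the twist of `θ` is the representation `IsR` of the twist -/
private theorem SV_tw {m : ℕ} {V : Type} [AddCommGroup V] [Module ℂ V]
    {ρ : Representation ℂ (Bo m) V} {θ : Representation ℂ (Bo m) (RG m V)} (hθ : IsR ρ θ)
    (μ : Fin m → ℤ) : IsR (tw ρ μ) (tw θ μ) := by
  intro b F g
  change chr μ b • (θ b F).1 g = chr μ b • ρ b (F.1 (g * b.1))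
  rw [hθ b F g]

theorem tSV : S_RA → S_SV := by
  intro hRA m i j hij V _ _ ρ σ
  refine ⟨?_, ?_⟩
  · intro hA q θ hθ τ hτ x
    obtain ⟨⟨σ', hσ'⟩, -⟩ := hRA m i j hij 1 V ρ σ hA θ hθ
    exact (aVZ m (RG m V) (RG m V) θ θ).1 _ q (SV_com hA.rat hθ hτ x)
      (aL m i j hij (RG m V) θ σ' hσ' q)
  · intro hA μ r hr
    obtain ⟨θ, hθ⟩ := (aRGa m V ρ hA.rat).1
    obtain ⟨⟨σ', hσ'⟩, huniq⟩ := hRA m i j hij 0 V ρ σ hA θ hθ
    obtain ⟨hsw, hvan⟩ := aSw m i j hij (RG m V) θ σ' hσ' μ r hr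
    refine ⟨?_, ?_⟩
    · intro q hT θ' hθ' τ hτ x
      rw [huniq _ θ' hθ']
      exact (hsw _ (SV_com hA.rat hθ hτ x) q).1 (hT (tw θ μ) (SV_tw hθ μ) τ hτ x)
    · intro θ' hθ' τ hτ x
      have hrat : Rat (tw ρ (μ + ((r : ℤ) + 1) • root i j)) := by
        have hne : i ≠ j := by
          intro h
          rw [h] at hij
          omega
        exact (tTw tMor m i j hne 0 V ρ σ _).2.1 hA.rat
      refine (aVZ m (RG m V) (RG m V) θ' θ').1 _ 0 (SV_com hrat hθ' hτ x) ?_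
      rw [huniq _ θ' hθ']
      exact hvan

end PW
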