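import Pool.Agent.Lib.MP_3b3418_ag.PW.SpecE

/-!
# Module So: Bott vanishing for the first `n` coordinates
-/

set_option autoImplicit false

namespace PW

open MP3s PV

private theorem So_swsw {m : ℕ} (η : Fin m → ℤ) (i j : Fin m) :
    (fun k => (fun l => η (Equiv.swap i j l)) (Equiv.swap i j k)) = η := by
  funext k
  change η (Equiv.swap i j (Equiv.swap i j k)) = η k
  rw [← Equiv.Perm.mul_apply, Equiv.swap_mul_self, Equiv.Perm.one_apply]

private theorem So_sw {m : ℕ} (η : Fin m → ℤ) (i j : Fin m) (hij : j.val = i.val + 1) (r : ℕ)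
    (hr : (del m - η) j - (del m - η) i = r) :
    (del m - η) + ((r : ℤ) + 1) • root i j = del m - fun k => η (Equiv.swap i j k) := by
  have hne : i ≠ j := by
    intro h
    rw [h] at hij
    omega
  have hd : del m j = del m i - 1 := by
    unfold del
    rw [hij]
    push_cast
    ring
  have hr' : (r : ℤ) = η i - η j - 1 := by
    rw [← hr, Pi.sub_apply, Pi.sub_apply, hd]
    ring
  funext k
  rw [Pi.add_apply, Pi.sub_apply, Pi.smul_apply, Pi.sub_apply, hr']
  by_cases hki : k = i
  · subst hki
    have h1 : root k j k = 1 := by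
      unfold root
      rw [if_pos rfl, if_neg hne]
      ring
    rw [h1, Equiv.swap_apply_left, smul_eq_mul]
    ring
  · by_cases hkj : k = j
    · subst hkj
      have h1 : root i k k = -1 := by
        unfold root
        rw [if_pos rfl, if_neg hki]
        ring
      rw [h1, Equiv.swap_apply_right, smul_eq_mul]
      ring
    · have h1 : root i j k = 0 := by
        unfold root
        rw [if_neg hki, if_neg hkj]
        ring
      rw [h1, Equiv.swap_apply_of_ne_of_ne hki hkj, smul_zero, add_zero]

/-- a swap of two of the first `n` coordinates keeps the first `n` coordinates -/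
private theorem So_lt {m n : ℕ} (i j k : Fin m) (hi : i.val < n) (hj : j.val < n) (hk : k.val < n) :
    (Equiv.swap i j k).val < n := by
  by_cases h1 : k = i
  · rw [h1, Equiv.swap_apply_left]
    exact hj
  · by_cases h2 : k = j
    · rw [h2, Equiv.swap_apply_right]
      exact hi
    · rw [Equiv.swap_apply_of_ne_of_ne h1 h2]
      exact hk

/-- The combinatorial part. -/
private theorem So_comb {m n : ℕ} (P : (Fin m → ℤ) → ℕ → Prop) (hIn : S_In)
    (h0 : ∀ (η : Fin m → ℤ) (i j : Fin m), j.val = i.val + 1 → j.val < n → η i = η j → ∀ q, P η q)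
    (h1 : ∀ (η : Fin m → ℤ) (i j : Fin m), j.val = i.val + 1 → j.val < n → η i < η j →
      (∀ q, P (fun k => η (Equiv.swap i j k)) q → P η (q + 1)) ∧ P η 0) :
    ∀ (N : ℕ) (η : Fin m → ℤ), inn n η = N →
      (∀ q, (∃ i j : Fin m, i < j ∧ j.val < n ∧ η i = η j) → P η q) ∧
      ∀ q η', Srt n η η' → (q < N → P η q) ∧ (N ≤ q → P η' (q - N) → P η q) := by
  intro N
  induction N with
  | zero =>
    intro η hη
    refine ⟨fun q he => ?_, fun q η' hs => ⟨fun h => absurd h (Nat.not_lt_zero q), fun _ h => ?_⟩⟩
    · obtain ⟨i, j, hij, hj, e⟩ := (hIn m n η).2.2.1 hη he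
      exact h0 η i j hij hj e q
    · rw [(hIn m n η).2.2.2.1 hη η' hs] at h
      exact h
  | succ N ih =>
    intro η hη
    obtain ⟨i, j, hij, hj, hlt⟩ := (hIn m n η).2.1 (by omega)
    have hi : i.val < n := by omega
    have e1 := (hIn m n η).1 i j hij hj hlt
    obtain ⟨a1, a2⟩ := h1 η i j hij hj hlt
    obtain ⟨b1, b2⟩ := ih (fun k => η (Equiv.swap i j k)) (by omega)
    refine ⟨fun q he => ?_, fun q η' hs => ⟨fun h => ?_, fun h hP => ?_⟩⟩
    · rcases q with _ | q
      · exact a2
      · refine a1 q (b1 q ?_)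
        obtain ⟨k, l, hkl, hl, e⟩ := he
        have hk : k.val < n := lt_trans hkl hl
        have hk' := So_lt i j k hi hj hk
        have hl' := So_lt i j l hi hj hl
        have ek : η (Equiv.swap i j (Equiv.swap i j k)) = η k := by rw [Equiv.swap_apply_self]
        have el : η (Equiv.swap i j (Equiv.swap i j l)) = η l := by rw [Equiv.swap_apply_self]
        have hne : Equiv.swap i j k ≠ Equiv.swap i j l := fun h =>
          (ne_of_lt hkl) ((Equiv.swap i j).injective h)
        rcases lt_or_gt_of_ne hne with h | h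
        · exact ⟨_, _, h, hl', by rw [ek, el, e]⟩
        · exact ⟨_, _, h, hk', by rw [ek, el, e]⟩
    · rcases q with _ | q
      · exact a2
      · exact a1 q ((b2 q η' ((hIn m n η).2.2.2.2.1 i j η' hi hj hs)).1 (by omega))
    · rcases q with _ | q
      · omega
      · refine a1 q ((b2 q η' ((hIn m n η).2.2.2.2.1 i j η' hi hj hs)).2 (by omega) ?_)
        have : q + 1 - (N + 1) = q - N := by omega
        rwa [this] at hP

theorem tSo : S_SV → S_In → S_So := by
  intro hSV hIn m n V _ _ ρ hPM η q
  have hne : ∀ i j : Fin m, j.val = i.val + 1 → i ≠ j := by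
    intro i j hij h
    rw [h] at hij
    omega
  have hdel : ∀ i j : Fin m, j.val = i.val + 1 → del m j = del m i - 1 := by
    intro i j hij
    unfold del
    rw [hij]
    push_cast
    ring
  have key := So_comb (n := n) (fun η q => Trv (tw ρ (del m - η)) q) hIn ?_ ?_ (inn n η) η rfl
  · exact ⟨key.1 q, fun η' hs => key.2 q η' hs⟩
  · intro η i j hij hj hη q
    obtain ⟨σ, hσ⟩ := hPM i j hij hj
    have h1 := (tTw tMor m i j (hne i j hij) 0 V ρ σ (del m - η)).1 hσ
    have h2 : (0 : ℤ) + (del m - η) i - (del m - η) j = 1 := by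
      rw [Pi.sub_apply, Pi.sub_apply, hdel i j hij, hη]
      ring
    rw [h2] at h1
    exact (hSV m i j hij V (tw ρ (del m - η)) σ).1 h1 q
  · intro η i j hij hj hη
    obtain ⟨σ, hσ⟩ := hPM i j hij hj
    obtain ⟨r, hr⟩ : ∃ r : ℕ, (del m - fun l => η (Equiv.swap i j l)) j -
        (del m - fun l => η (Equiv.swap i j l)) i = r := by
      refine ⟨((del m - fun l => η (Equiv.swap i j l)) j -
        (del m - fun l => η (Equiv.swap i j l)) i).toNat, ?_⟩
      rw [Int.toNat_of_nonneg]
      rw [Pi.sub_apply, Pi.sub_apply, hdel i j hij]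
      rw [Equiv.swap_apply_left, Equiv.swap_apply_right]
      linarith [Int.add_one_le_iff.2 hη]
    have h1 := (hSV m i j hij V ρ σ).2 hσ (del m - fun l => η (Equiv.swap i j l)) r hr
    rw [So_sw (fun l => η (Equiv.swap i j l)) i j hij r hr, So_swsw] at h1
    exact h1

end PW
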