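import Pool.Agent.Lib.MP_3b3418_ag.PW.SpecE

/-!
# Module Ex: short exact sequences for `Trv`
-/

set_option autoImplicit false

namespace PW

open MP3s PV

/-- Composition with a linear map. -/
private def Ex_map (m : ℕ) {M N : Type} [AddCommGroup M] [Module ℂ M] [AddCommGroup N]
    [Module ℂ N] (L : M →ₗ[ℂ] N) : RG m M →ₗ[ℂ] RG m N where
  toFun F := ⟨fun g => L (F.1 g), Reg.map F.2 L⟩
  map_add' F F' := Subtype.ext (funext fun g => map_add L (F.1 g) (F'.1 g))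
  map_smul' c F := Subtype.ext (funext fun g => map_smul L c (F.1 g))

private theorem Ex_map_apply (m : ℕ) {M N : Type} [AddCommGroup M] [Module ℂ M] [AddCommGroup N]
    [Module ℂ N] (L : M →ₗ[ℂ] N) (F : RG m M) (g : SLm m) :
    (Ex_map m L F).1 g = L (F.1 g) := rfl

/-- **Ex** (exactness). -/
theorem tEx : S_Ex := by
  intro m V' V V'' _ _ _ _ _ _ ρ' ρ ρ'' ι π q hrat' hrat hrat'' hses0 hT' hT'' θ hθ τ hτ x
  obtain ⟨hinj, hsurj, hex, hι, hπ⟩ := hses0
  obtain ⟨⟨θ', hθ'⟩, ⟨τ', hτ'⟩, -, -⟩ := aRGa m V' ρ' hrat'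
  obtain ⟨⟨θ'', hθ''⟩, ⟨τ'', hτ''⟩, -, -⟩ := aRGa m V'' ρ'' hrat''
  obtain ⟨-, -, hMM, -⟩ := aRGa m V ρ hrat
  obtain ⟨hratθ, hcom⟩ := hMM θ hθ
  obtain ⟨ℓ, hℓ⟩ := ι.exists_leftInverse_of_injective (LinearMap.ker_eq_bot.mpr hinj)
  have hℓ' : ∀ c : V', ℓ (ι c) = c := fun c => LinearMap.congr_fun hℓ c
  obtain ⟨s, hs⟩ := π.exists_rightInverse_of_surjective (LinearMap.range_eq_top.mpr hsurj)
  have hs' : ∀ w : V'', π (s w) = w := fun w => LinearMap.congr_fun hs w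
  have hses : Ses θ' θ θ'' (Ex_map m ι) (Ex_map m π) := by
    refine ⟨?_, ?_, ?_, ?_, ?_⟩
    · intro F F' h
      refine Subtype.ext (funext fun g => hinj ?_)
      rw [← Ex_map_apply, ← Ex_map_apply, h]
    · intro F
      refine ⟨Ex_map m s F, Subtype.ext (funext fun g => ?_)⟩
      rw [Ex_map_apply, Ex_map_apply, hs']
    · intro F
      constructor
      · intro h
        refine ⟨Ex_map m ℓ F, Subtype.ext (funext fun g => ?_)⟩
        have h1 : π (F.1 g) = 0 := by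
          rw [← Ex_map_apply, h]
          rfl
        obtain ⟨a, ha⟩ := (hex (F.1 g)).1 h1
        rw [Ex_map_apply, Ex_map_apply, ← ha, hℓ']
      · rintro ⟨F', rfl⟩
        refine Subtype.ext (funext fun g => ?_)
        rw [Ex_map_apply, Ex_map_apply]
        exact (hex _).2 ⟨_, rfl⟩
    · intro b F
      refine Subtype.ext (funext fun g => ?_)
      rw [Ex_map_apply, hθ', hθ, Ex_map_apply, hι]
    · intro b F
      refine Subtype.ext (funext fun g => ?_)
      rw [Ex_map_apply, hθ, hθ'', Ex_map_apply, hπ]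
  refine aTri m (RG m V') (RG m V) (RG m V'') θ' θ θ'' (Ex_map m ι) (Ex_map m π)
    τ' τ τ'' q hratθ hses (fun y => ⟨fun F => ?_, fun F => ?_⟩) (fun y => hcom τ hτ y)
    (fun y => hT' θ' hθ' τ' hτ' y) (fun y => hT'' θ'' hθ'' τ'' hτ'' y) x
  · refine Subtype.ext (funext fun g => ?_)
    rw [Ex_map_apply, hτ', hτ, Ex_map_apply]
  · refine Subtype.ext (funext fun g => ?_)
    rw [Ex_map_apply, hτ, hτ'', Ex_map_apply]

end PW
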